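import Pool.Agent.Results.MP_be1d92_co.UnboundedLength

/-!
# Retractions onto good subsets: every number of steps is needed already for unions of two chains

The earlier result `UnboundedLength` of this repository gives, for every `N`, a chain-complete
ordered set without infinite antichains with `γ(P) = N + 1`, namely `(ω + 1) × T`, whose antichains
have up to about `2N` elements. Here the exact threshold for the width is determined:

* if `P` is a chain (width one), then `γ(P) ≤ 1`;
* for every `N ≥ 1` there is a countable chain-complete ordered set `P` that is the union of two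
  chains (width two), with `γ(P) = N`, also for the weaker notion of a good subset.

The ordered set consists of `2N` chains `C_0, …, C_(2N-1)` of the type `ω + 1` and `2N` single points
`g_0, …, g_(2N-1)`. The element `j` of `C_i` is below the element `j'` of `C_(i+1)` if and only if `j ≤ j'`;
everything in `C_i` is below everything in `C_i'` if `i + 1 < i'`; the point `g_i` is incomparable
to all elements of `C_i` and below (above) everything of a higher (lower) index. The point `g_i`
prevents the elements of the other chains from being funneled through an element of `C_i`. At each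
step exactly the first and the last of the infinite chains shrink to one point.
-/

set_option autoImplicit false

namespace Pool.Agent.Results.MP_be1d92_co.TwoChains

open Pool.Agent.Results.MP_be1d92_co.UnboundedLength

/-- the points: `g i` and the elements `c i j` of the chains -/
inductive E (m : ℕ) : Type
  | g (i : Fin m) : E m
  | c (i : Fin m) (j : ℕ∞) : E m

variable {m : ℕ}

/-- the index of a point -/
def lev : E m → ℕ
  | E.g i => i
  | E.c i _ => i

/-- the order -/
def le : E m → E m → Prop
  | E.g i, E.g i' => (i : ℕ) ≤ i'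
  | E.g i, E.c i' _ => (i : ℕ) < i'
  | E.c i _, E.g i' => (i : ℕ) < i'
  | E.c i j, E.c i' j' => (i : ℕ) ≤ i' ∧ (j ≤ j' ∨ (i : ℕ) + 1 < i')

instance : PartialOrder (E m) where
  le := le
  le_refl x := by
    cases x with
    | g i => exact le_rfl
    | c i j => exact ⟨le_rfl, Or.inl le_rfl⟩
  le_trans x y z h1 h2 := by
    cases x with
    | g i => cases y with
      | g i' => cases z with
        | g i'' => exact Nat.le_trans h1 h2
        | c i'' j'' => exact Nat.lt_of_le_of_lt h1 h2
      | c i' j' => cases z with
        | g i'' => exact (Nat.lt_trans h1 h2).le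
        | c i'' j'' => exact Nat.lt_of_lt_of_le h1 h2.1
    | c i j => cases y with
      | g i' => cases z with
        | g i'' => exact Nat.lt_of_lt_of_le h1 h2
        | c i'' j'' =>
          have h1' : (i : ℕ) < i' := h1
          have h2' : (i' : ℕ) < i'' := h2
          exact ⟨by omega, Or.inr (by omega)⟩
      | c i' j' => cases z with
        | g i'' => exact Nat.lt_of_le_of_lt h1.1 h2
        | c i'' j'' =>
          obtain ⟨h3, h4⟩ := h1
          obtain ⟨h5, h6⟩ := h2
          refine ⟨Nat.le_trans h3 h5, ?_⟩
          rcases h4 with h4 | h4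
          · rcases h6 with h6 | h6
            · exact Or.inl (h4.trans h6)
            · exact Or.inr (by omega)
          · exact Or.inr (by omega)
  le_antisymm x y h1 h2 := by
    cases x with
    | g i => cases y with
      | g i' =>
        have h1' : (i : ℕ) ≤ i' := h1
        have h2' : (i' : ℕ) ≤ i := h2
        rw [Fin.ext (Nat.le_antisymm h1' h2')]
      | c i' j' =>
        have h1' : (i : ℕ) < i' := h1
        have h2' : (i' : ℕ) < i := h2
        omega
    | c i j => cases y with
      | g i' =>
        have h1' : (i : ℕ) < i' := h1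
        have h2' : (i' : ℕ) < i := h2
        omega
      | c i' j' =>
        obtain ⟨h3, h4⟩ := h1
        obtain ⟨h5, h6⟩ := h2
        have hi : i = i' := Fin.ext (Nat.le_antisymm h3 h5)
        subst hi
        rcases h4 with h4 | h4
        · rcases h6 with h6 | h6
          · rw [le_antisymm h4 h6]
          · omega
        · omega

theorem gg (i i' : Fin m) : E.g i ≤ E.g i' ↔ (i : ℕ) ≤ i' := Iff.rfl
theorem gc (i i' : Fin m) (j : ℕ∞) : E.g i ≤ E.c i' j ↔ (i : ℕ) < i' := Iff.rfl
theorem cg (i i' : Fin m) (j : ℕ∞) : E.c i j ≤ E.g i' ↔ (i : ℕ) < i' := Iff.rfl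
theorem cc (i i' : Fin m) (j j' : ℕ∞) :
    E.c i j ≤ E.c i' j' ↔ (i : ℕ) ≤ i' ∧ (j ≤ j' ∨ (i : ℕ) + 1 < i') := Iff.rfl

theorem comp_gg (i i' : Fin m) : Comp (E.g i) (E.g i') := by
  unfold Comp
  rw [gg, gg]
  omega

theorem comp_gc (i i' : Fin m) (j : ℕ∞) : Comp (E.g i) (E.c i' j) ↔ (i : ℕ) ≠ i' := by
  unfold Comp
  rw [gc, cg]
  omega

theorem comp_cg (i i' : Fin m) (j : ℕ∞) : Comp (E.c i j) (E.g i') ↔ (i : ℕ) ≠ i' := by
  unfold Comp
  rw [gc, cg]
  omega

theorem comp_cc_same (i : Fin m) (j j' : ℕ∞) : Comp (E.c i j) (E.c i j') := by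
  unfold Comp
  rw [cc, cc]
  rcases le_total j j' with h | h
  · exact Or.inl ⟨le_rfl, Or.inl h⟩
  · exact Or.inr ⟨le_rfl, Or.inl h⟩

theorem comp_cc_far {i i' : Fin m} (j j' : ℕ∞) (h : (i : ℕ) + 1 < i' ∨ (i' : ℕ) + 1 < i) :
    Comp (E.c i j) (E.c i' j') := by
  unfold Comp
  rw [cc, cc]
  rcases h with h | h
  · exact Or.inl ⟨by omega, Or.inr h⟩
  · exact Or.inr ⟨by omega, Or.inr h⟩

/-- the `k`-th set of the sequence -/
def S (m k : ℕ) : Set (E m) :=
  {x | match x with
    | E.g _ => True
    | E.c i j => (k ≤ (i : ℕ) ∧ (i : ℕ) + k < m) ∨ ((i : ℕ) < k ∧ j = 0) ∨ (m ≤ (i : ℕ) + k ∧ j = ⊤)}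

theorem g_mem (k : ℕ) (i : Fin m) : E.g i ∈ S m k := trivial

theorem c_mem (k : ℕ) (i : Fin m) (j : ℕ∞) : E.c i j ∈ S m k ↔
    (k ≤ (i : ℕ) ∧ (i : ℕ) + k < m) ∨ ((i : ℕ) < k ∧ j = 0) ∨ (m ≤ (i : ℕ) + k ∧ j = ⊤) := Iff.rfl

theorem S_zero : S m 0 = Set.univ := by
  ext x
  cases x with
  | g i => simp [g_mem]
  | c i j =>
    have := i.isLt
    simp [c_mem, this]

theorem S_anti {k : ℕ} (hk : 2 * k + 2 ≤ m) : S m (k + 1) ⊆ S m k := by
  intro x hx
  cases x with
  | g i => exact g_mem k i
  | c i j =>
    rw [c_mem] at hx ⊢
    rcases hx with h | ⟨h, h'⟩ | ⟨h, h'⟩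
    · left; omega
    · by_cases h2 : (i : ℕ) < k
      · exact Or.inr (Or.inl ⟨h2, h'⟩)
      · left; omega
    · by_cases h2 : m ≤ (i : ℕ) + k
      · exact Or.inr (Or.inr ⟨h2, h'⟩)
      · left; omega

/-- the elements `g i` dominate nothing else -/
theorem guard_sep {k : ℕ} (hk : 2 * k + 2 ≤ m) {p : E m} (hp : p ∈ S m k) {i : Fin m}
    (hne : p ≠ E.g i) : ∃ x ∈ S m k, Comp x p ∧ ¬ Comp x (E.g i) := by
  have hi := i.isLt
  -- an element of the chain `i` in the set
  have hex : ∃ j : ℕ∞, E.c i j ∈ S m k := by
    by_cases h1 : (i : ℕ) < k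
    · exact ⟨0, (c_mem _ _ _).2 (Or.inr (Or.inl ⟨h1, rfl⟩))⟩
    · by_cases h2 : m ≤ (i : ℕ) + k
      · exact ⟨⊤, (c_mem _ _ _).2 (Or.inr (Or.inr ⟨h2, rfl⟩))⟩
      · exact ⟨0, (c_mem _ _ _).2 (Or.inl (by omega))⟩
  cases p with
  | g i' =>
    obtain ⟨j, hj⟩ := hex
    have hii : (i : ℕ) ≠ i' := fun h => hne (by rw [Fin.ext h])
    exact ⟨E.c i j, hj, (comp_cg _ _ _).2 hii, by rw [comp_cg]; simp⟩
  | c i' j' =>
    have hi' := i'.isLt
    by_cases h0 : (i : ℕ) = i'
    · refine ⟨E.c i' j', hp, Comp.refl _, ?_⟩
      rw [comp_cg]
      omega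
    · rw [c_mem] at hp
      by_cases h1 : (i' : ℕ) = i + 1
      · -- the element is above: the smallest possible
        by_cases h2 : m ≤ (i : ℕ) + k
        · refine ⟨E.c i ⊤, (c_mem _ _ _).2 (Or.inr (Or.inr ⟨h2, rfl⟩)), ?_, by rw [comp_cg]; simp⟩
          have hj : j' = ⊤ := by
            rcases hp with hp | hp | hp
            · omega
            · omega
            · exact hp.2
          left
          rw [cc, hj]
          exact ⟨by omega, Or.inl le_rfl⟩
        · refine ⟨E.c i 0, (c_mem _ _ _).2 ?_, ?_, by rw [comp_cg]; simp⟩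
          · by_cases h3 : (i : ℕ) < k
            · exact Or.inr (Or.inl ⟨h3, rfl⟩)
            · exact Or.inl (by omega)
          · left
            rw [cc]
            exact ⟨by omega, Or.inl zero_le⟩
      · by_cases h2 : (i : ℕ) = i' + 1
        · by_cases h3 : (i : ℕ) < k
          · refine ⟨E.c i 0, (c_mem _ _ _).2 (Or.inr (Or.inl ⟨h3, rfl⟩)), ?_, by rw [comp_cg]; simp⟩
            have hj : j' = 0 := by
              rcases hp with hp | hp | hp
              · omega
              · exact hp.2
              · omega
            right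
            rw [cc, hj]
            exact ⟨by omega, Or.inl le_rfl⟩
          · refine ⟨E.c i ⊤, (c_mem _ _ _).2 ?_, ?_, by rw [comp_cg]; simp⟩
            · by_cases h4 : m ≤ (i : ℕ) + k
              · exact Or.inr (Or.inr ⟨h4, rfl⟩)
              · exact Or.inl (by omega)
            · right
              rw [cc]
              exact ⟨by omega, Or.inl le_top⟩
        · obtain ⟨j, hj⟩ := hex
          exact ⟨E.c i j, hj, comp_cc_far _ _ (by omega), by rw [comp_cg]; simp⟩

/-- the points of `S (k + 1)` are not dominated by other points, as witnessed by `S k` -/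
theorem not_dominated {k : ℕ} (hk : 2 * k + 2 ≤ m) {p q : E m} (hp : p ∈ S m (k + 1))
    (hpq : p ≠ q) : ∃ x ∈ S m k, Comp x p ∧ ¬ Comp x q := by
  have hpk := S_anti hk hp
  cases q with
  | g i => exact guard_sep hk hpk hpq
  | c i j =>
    have hi := i.isLt
    cases p with
    | g i' =>
      by_cases h0 : (i' : ℕ) = i
      · exact ⟨E.g i', g_mem _ _, Comp.refl _, by rw [comp_gc]; omega⟩
      · exact ⟨E.g i, g_mem _ _, comp_gg _ _, by rw [comp_gc]; simp⟩
    | c i' j' =>
      have hi' := i'.isLt
      by_cases h0 : i' = i
      · subst h0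
        have hjj : j' ≠ j := fun h => hpq (by rw [h])
        rw [c_mem] at hp
        rcases lt_or_gt_of_ne hjj with h1 | h1
        · -- `p < q`
          have hlt : (i' : ℕ) + 1 < m := by
            rcases hp with hp | hp | hp
            · omega
            · omega
            · rw [hp.2] at h1
              exact absurd h1 not_top_lt
          refine ⟨E.c ⟨i' + 1, hlt⟩ j', ?_, ?_, ?_⟩
          · rw [c_mem]
            rcases hp with hp | hp | hp
            · left
              show k ≤ (i' : ℕ) + 1 ∧ (i' : ℕ) + 1 + k < m
              omega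
            · by_cases h2 : (i' : ℕ) + 1 < k
              · exact Or.inr (Or.inl ⟨h2, hp.2⟩)
              · left
                show k ≤ (i' : ℕ) + 1 ∧ (i' : ℕ) + 1 + k < m
                omega
            · rw [hp.2] at h1
              exact absurd h1 not_top_lt
          · right
            rw [cc]
            exact ⟨Nat.le_succ _, Or.inl le_rfl⟩
          · rintro (h2 | h2)
            · rw [cc] at h2
              have : (i' : ℕ) + 1 ≤ i' := h2.1
              omega
            · rw [cc] at h2
              rcases h2.2 with h3 | h3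
              · exact absurd (lt_of_lt_of_le h1 h3) (lt_irrefl _)
              · have : (i' : ℕ) + 1 < (i' : ℕ) + 1 := h3
                omega
        · -- `q < p`
          have hpos : 1 ≤ (i' : ℕ) := by
            rcases hp with hp | hp | hp
            · omega
            · rw [hp.2] at h1
              exact absurd h1 not_lt_zero
            · omega
          refine ⟨E.c ⟨i' - 1, by omega⟩ j', ?_, ?_, ?_⟩
          · rw [c_mem]
            rcases hp with hp | hp | hp
            · left
              show k ≤ (i' : ℕ) - 1 ∧ (i' : ℕ) - 1 + k < m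
              omega
            · rw [hp.2] at h1
              exact absurd h1 not_lt_zero
            · by_cases h2 : m ≤ (i' : ℕ) - 1 + k
              · exact Or.inr (Or.inr ⟨h2, hp.2⟩)
              · left
                show k ≤ (i' : ℕ) - 1 ∧ (i' : ℕ) - 1 + k < m
                omega
          · left
            rw [cc]
            exact ⟨Nat.sub_le _ _, Or.inl le_rfl⟩
          · rintro (h2 | h2)
            · rw [cc] at h2
              rcases h2.2 with h3 | h3
              · exact absurd (lt_of_lt_of_le h1 h3) (lt_irrefl _)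
              · have : (i' : ℕ) - 1 + 1 < (i' : ℕ) := h3
                omega
            · rw [cc] at h2
              have : (i' : ℕ) ≤ (i' : ℕ) - 1 := h2.1
              omega
      · have h0' : (i : ℕ) ≠ i' := fun h => h0 (Fin.ext h.symm)
        exact ⟨E.g i, g_mem _ _, (comp_gc _ _ _).2 h0', by rw [comp_gc]; simp⟩

theorem step_lower {k : ℕ} (hk : 2 * k + 2 ≤ m) {Q Q' : Set (E m)} (hQ : S m k ⊆ Q)
    (hg : IsWeaklyGood Q Q') : S m (k + 1) ⊆ Q' := by
  intro p hp
  have hpQ : p ∈ Q := hQ (S_anti hk hp)
  obtain ⟨q, hq, hf⟩ := hg.2.1 p hpQ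
  rw [funneled_iff hpQ] at hf
  by_cases hpq : p = q
  · rw [hpq]
    exact hq
  · obtain ⟨x, hx, h1, h2⟩ := not_dominated hk hp hpq
    exact absurd (hf.2 x (hQ hx) h1) h2

theorem S_infinite {k : ℕ} (hk : 2 * k + 2 ≤ m) : (S m k).Infinite := by
  have h : Function.Injective fun i : ℕ => (E.c ⟨k, by omega⟩ (i : ℕ∞) : E m) := by
    intro i j hij
    have h1 : (i : ℕ∞) = (j : ℕ∞) := by
      injection hij
    exact_mod_cast h1
  refine Set.infinite_of_injective_forall_mem h fun i => ?_
  rw [c_mem]
  left
  show k ≤ k ∧ k + k < m
  omega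

theorem lower_bound {N n : ℕ} (hn : n < N) :
    ¬ ReachesFinite (IsWeaklyGood (α := E (2 * N))) n := by
  rintro ⟨Q, h0, h1, h2⟩
  have h : ∀ k ≤ n, S (2 * N) k ⊆ Q k := by
    intro k
    induction k with
    | zero =>
      intro _
      rw [h0]
      exact Set.subset_univ _
    | succ k ih =>
      intro hk
      exact step_lower (by omega) (ih (by omega)) (h1 k (by omega))
  exact S_infinite (m := 2 * N) (k := n) (by omega) (h2.subset (h n le_rfl))

/-- the first infinite chain is funneled through its least element, the last one through its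
greatest element -/
theorem S_good {k : ℕ} (hk : 2 * k + 2 ≤ m) : IsGood (S m k) (S m (k + 1)) := by
  refine ⟨S_anti hk, fun p hp => ?_⟩
  by_cases hp1 : p ∈ S m (k + 1)
  · refine ⟨p, ⟨hp1, fun C _ hC => hC⟩, ?_⟩
    rintro q ⟨hq, hf⟩
    by_contra hne
    rw [funneled_iff hp] at hf
    obtain ⟨x, hx, h1, h2⟩ := not_dominated hk hp1 (Ne.symm hne)
    exact h2 (hf.2 x hx h1)
  · cases p with
    | g i => exact absurd (g_mem _ _) hp1
    | c i j =>
      have hi := i.isLt
      have hp0 := hp
      -- an element through which `p` is funneled lies in the same chain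
      have huniq : ∀ q ∈ S m (k + 1), Funneled (S m k) (E.c i j) q → ∃ j', q = E.c i j' := by
        intro q _ hf
        rw [funneled_iff hp0] at hf
        cases q with
        | g i' =>
          obtain ⟨x, hx, h1, h2⟩ := guard_sep hk hp0 (i := i') (by simp)
          exact absurd (hf.2 x hx h1) h2
        | c i' j' =>
          by_cases h0 : i' = i
          · exact ⟨j', by rw [h0]⟩
          · have h0' : (i' : ℕ) ≠ i := fun h => h0 (Fin.ext h)
            have h1 := hf.2 (E.g i') (g_mem _ _) ((comp_gc _ _ _).2 h0')
            rw [comp_gc] at h1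
            exact absurd rfl h1
      rw [c_mem] at hp hp1
      push Not at hp1
      by_cases hb : (i : ℕ) = k
      · -- the first chain
        refine ⟨E.c i 0, ⟨?_, ?_⟩, ?_⟩
        · rw [c_mem]
          exact Or.inr (Or.inl ⟨by omega, rfl⟩)
        · rw [funneled_iff hp0]
          refine ⟨(c_mem _ _ _).2 (Or.inl (by omega)), ?_⟩
          intro x hx hxp
          cases x with
          | g i' => rwa [comp_gc] at hxp ⊢
          | c i' j' =>
            rw [c_mem] at hx
            by_cases h1 : i' = i
            · subst h1
              exact comp_cc_same _ _ _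
            · have h1' : (i' : ℕ) ≠ i := fun h => h1 (Fin.ext h)
              by_cases h2 : (i' : ℕ) = i + 1
              · right
                rw [cc]
                exact ⟨by omega, Or.inl zero_le⟩
              · by_cases h3 : (i : ℕ) = i' + 1
                · have hj : j' = 0 := by
                    rcases hx with hx | hx | hx
                    · omega
                    · exact hx.2
                    · omega
                  left
                  rw [cc, hj]
                  exact ⟨by omega, Or.inl le_rfl⟩
                · exact comp_cc_far _ _ (by omega)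
        · rintro q ⟨hq, hf⟩
          obtain ⟨j', rfl⟩ := huniq q hq hf
          rw [c_mem] at hq
          rcases hq with hq | hq | hq
          · omega
          · rw [hq.2]
          · omega
      · -- the last chain
        have hb' : (i : ℕ) + k + 1 = m := by
          rcases hp with hp | hp | hp
          · by_contra hne
            have := hp1.1 (by omega)
            omega
          · exact absurd hp.2 (hp1.2.1 (by omega))
          · exact absurd hp.2 (hp1.2.2 (by omega))
        refine ⟨E.c i ⊤, ⟨?_, ?_⟩, ?_⟩
        · rw [c_mem]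
          exact Or.inr (Or.inr ⟨by omega, rfl⟩)
        · rw [funneled_iff hp0]
          refine ⟨(c_mem _ _ _).2 (Or.inl (by omega)), ?_⟩
          intro x hx hxp
          cases x with
          | g i' => rwa [comp_gc] at hxp ⊢
          | c i' j' =>
            have hi' := i'.isLt
            rw [c_mem] at hx
            by_cases h1 : i' = i
            · subst h1
              exact comp_cc_same _ _ _
            · have h1' : (i' : ℕ) ≠ i := fun h => h1 (Fin.ext h)
              by_cases h2 : (i : ℕ) = i' + 1
              · left
                rw [cc]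
                exact ⟨by omega, Or.inl le_top⟩
              · by_cases h3 : (i' : ℕ) = i + 1
                · have hj : j' = ⊤ := by
                    rcases hx with hx | hx | hx
                    · omega
                    · omega
                    · exact hx.2
                  right
                  rw [cc, hj]
                  exact ⟨by omega, Or.inl le_rfl⟩
                · exact comp_cc_far _ _ (by omega)
        · rintro q ⟨hq, hf⟩
          obtain ⟨j', rfl⟩ := huniq q hq hf
          rw [c_mem] at hq
          rcases hq with hq | hq | hq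
          · omega
          · omega
          · rw [hq.2]

theorem S_finite (N : ℕ) : (S (2 * N) N).Finite := by
  have h : S (2 * N) N ⊆ Set.range (fun i : Fin (2 * N) => (E.g i : E (2 * N))) ∪
      Set.range (fun x : Fin (2 * N) × Bool => (E.c x.1 (if x.2 then ⊤ else 0) : E (2 * N))) := by
    intro x hx
    cases x with
    | g i => exact Or.inl ⟨i, rfl⟩
    | c i j =>
      right
      rw [c_mem] at hx
      rcases hx with hx | hx | hx
      · omega
      · exact ⟨(i, false), by rw [hx.2]; rfl⟩
      · exact ⟨(i, true), by rw [hx.2]; rfl⟩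
  exact ((Set.finite_range _).union (Set.finite_range _)).subset h

theorem upper_bound (N : ℕ) : ReachesFinite (IsGood (α := E (2 * N))) N :=
  ⟨fun k => S (2 * N) k, S_zero, fun _ hk => S_good (by omega), S_finite N⟩

/-! ### Two chains -/

/-- the first chain: the chains of even index and the points `g i` of odd index -/
def D0 (m : ℕ) : Set (E m) :=
  {x | match x with
    | E.g i => (i : ℕ) % 2 = 1
    | E.c i _ => (i : ℕ) % 2 = 0}

/-- the second chain: the chains of odd index and the points `g i` of even index -/
def D1 (m : ℕ) : Set (E m) :=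
  {x | match x with
    | E.g i => (i : ℕ) % 2 = 0
    | E.c i _ => (i : ℕ) % 2 = 1}

theorem chain_of (r : ℕ) (D : Set (E m)) (hg : ∀ i, E.g i ∈ D → (i : ℕ) % 2 ≠ r)
    (hc : ∀ i j, E.c i j ∈ D → (i : ℕ) % 2 = r) : IsChain (· ≤ ·) D := by
  intro x hx y hy _
  have key : Comp x y := by
    cases x with
    | g i => cases y with
      | g i' => exact comp_gg _ _
      | c i' j' =>
        rw [comp_gc]
        intro h
        have h1 := hg i hx
        have h2 := hc i' j' hy
        rw [h] at h1
        exact h1 h2
    | c i j => cases y with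
      | g i' =>
        rw [comp_cg]
        intro h
        have h1 := hg i' hy
        have h2 := hc i j hx
        rw [h] at h2
        exact h1 h2
      | c i' j' =>
        have h1 := hc i j hx
        have h2 := hc i' j' hy
        by_cases h : i = i'
        · subst h
          exact comp_cc_same _ _ _
        · have h' : (i : ℕ) ≠ i' := fun h3 => h (Fin.ext h3)
          exact comp_cc_far _ _ (by omega)
  exact key

theorem D0_chain : IsChain (· ≤ ·) (D0 m) :=
  chain_of 0 _ (fun i h => by
    have : (i : ℕ) % 2 = 1 := h
    omega) fun _ _ h => h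

theorem D1_chain : IsChain (· ≤ ·) (D1 m) :=
  chain_of 1 _ (fun i h => by
    have : (i : ℕ) % 2 = 0 := h
    omega) fun _ _ h => h

theorem D_union : D0 m ∪ D1 m = Set.univ := by
  ext x
  simp only [Set.mem_union, Set.mem_univ, iff_true]
  cases x with
  | g i =>
    rcases Nat.mod_two_eq_zero_or_one (i : ℕ) with h | h
    · exact Or.inr h
    · exact Or.inl h
  | c i j =>
    rcases Nat.mod_two_eq_zero_or_one (i : ℕ) with h | h
    · exact Or.inl h
    · exact Or.inr h

/-- a union of two chains has no antichain with more than two elements -/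
theorem antichain_le {α : Type} [PartialOrder α] {A B C : Set α} (hB : IsChain (· ≤ ·) B)
    (hC : IsChain (· ≤ ·) C) (hBC : B ∪ C = Set.univ) (hA : IsAntichain (· ≤ ·) A) :
    A.encard ≤ 2 := by
  have h : ∀ D : Set α, IsChain (· ≤ ·) D → (A ∩ D).encard ≤ 1 := by
    intro D hD
    rw [Set.encard_le_one_iff]
    intro a b ha hb
    by_contra hne
    rcases hD ha.2 hb.2 hne with h1 | h1
    · exact hA ha.1 hb.1 hne h1
    · exact hA hb.1 ha.1 (Ne.symm hne) h1
  have h1 : A = (A ∩ B) ∪ (A ∩ C) := by
    rw [← Set.inter_union_distrib_left, hBC, Set.inter_univ]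
  rw [h1]
  refine (Set.encard_union_le _ _).trans ?_
  have h2 := add_le_add (h B hB) (h C hC)
  have h3 : (1 : ℕ∞) + 1 = 2 := by norm_num
  rwa [h3] at h2

/-! ### Chain completeness -/

theorem le_of_lev_lt {x y : E m} (h : lev x < lev y) (hc : Comp x y) : x ≤ y := by
  rcases hc with hc | hc
  · exact hc
  · exfalso
    cases x with
    | g i => cases y with
      | g i' =>
        have h1 : (i' : ℕ) ≤ i := hc
        have h2 : (i : ℕ) < i' := h
        omega
      | c i' j' =>
        have h1 : (i' : ℕ) < i := hc
        have h2 : (i : ℕ) < i' := h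
        omega
    | c i j => cases y with
      | g i' =>
        have h1 : (i' : ℕ) < i := hc
        have h2 : (i : ℕ) < i' := h
        omega
      | c i' j' =>
        have h1 : (i' : ℕ) ≤ i := hc.1
        have h2 : (i : ℕ) < i' := h
        omega

theorem lev_lt (x : E m) : lev x < m := by
  cases x with
  | g i => exact i.isLt
  | c i j => exact i.isLt

theorem chainComplete (m : ℕ) : ChainComplete (E m) := by
  intro C hC hne
  have hfin : (lev '' C).Finite := (Set.finite_Iio m).subset (by
    rintro _ ⟨x, _, rfl⟩
    exact lev_lt x)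
  have hne' : (lev '' C).Nonempty := hne.image _
  constructor
  · obtain ⟨M, hM⟩ := hfin.exists_maximal hne'
    obtain ⟨y, hy, hyM⟩ := hM.prop
    have hmax : ∀ x ∈ C, lev x ≤ lev y := by
      intro x hx
      rw [hyM]
      rcases le_total (lev x) M with h | h
      · exact h
      · exact hM.le_of_ge ⟨x, hx, rfl⟩ h
    cases y with
    | g i =>
      refine ⟨E.g i, fun x hx => ?_, fun u hu => hu hy⟩
      rcases Nat.lt_or_ge (lev x) (lev (E.g i : E m)) with h | h
      · exact le_of_lev_lt h (comp_of_chain hC hx hy)
      · have hl : lev x = i := Nat.le_antisymm (hmax x hx) h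
        cases x with
        | g i' => exact Nat.le_of_eq hl
        | c i' j' =>
          have h1 := comp_of_chain hC hx hy
          rw [comp_cg] at h1
          exact absurd hl h1
    | c i j =>
      have hcomp : ∀ x ∈ C, x = x → lev x = i → ∃ j', x = E.c i j' := by
        intro x hx _ hl
        cases x with
        | g i' =>
          have h1 := comp_of_chain hC hx hy
          rw [comp_gc] at h1
          exact absurd hl h1
        | c i' j' =>
          have : i' = i := Fin.ext hl
          exact ⟨j', by rw [this]⟩
      refine ⟨E.c i (sSup {j' | E.c i j' ∈ C}), fun x hx => ?_, fun u hu => ?_⟩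
      · rcases Nat.lt_or_ge (lev x) (lev (E.c i j : E m)) with h | h
        · refine (le_of_lev_lt h (comp_of_chain hC hx hy)).trans ?_
          rw [cc]
          exact ⟨le_rfl, Or.inl (le_sSup hy)⟩
        · have hl : lev x = i := Nat.le_antisymm (hmax x hx) h
          obtain ⟨j', rfl⟩ := hcomp x hx rfl hl
          rw [cc]
          exact ⟨le_rfl, Or.inl (le_sSup hx)⟩
      · cases u with
        | g i' =>
          have h1 : (i : ℕ) < i' := hu hy
          exact h1
        | c i' j' =>
          have h1 : (i : ℕ) ≤ i' := (hu hy).1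
          rw [cc]
          refine ⟨h1, ?_⟩
          by_cases h2 : (i : ℕ) + 1 < i'
          · exact Or.inr h2
          · left
            refine sSup_le fun j'' hj'' => ?_
            have h3 := hu hj''
            rw [cc] at h3
            rcases h3.2 with h4 | h4
            · exact h4
            · exact absurd h4 h2
  · obtain ⟨M, hM⟩ := hfin.exists_minimal hne'
    obtain ⟨y, hy, hyM⟩ := hM.prop
    have hmin : ∀ x ∈ C, lev y ≤ lev x := by
      intro x hx
      rw [hyM]
      rcases le_total M (lev x) with h | h
      · exact h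
      · exact hM.le_of_le ⟨x, hx, rfl⟩ h
    cases y with
    | g i =>
      refine ⟨E.g i, fun x hx => ?_, fun u hu => hu hy⟩
      rcases Nat.lt_or_ge (lev (E.g i : E m)) (lev x) with h | h
      · exact le_of_lev_lt h (comp_of_chain hC hy hx)
      · have hl : lev x = i := Nat.le_antisymm h (hmin x hx)
        cases x with
        | g i' => exact Nat.le_of_eq hl.symm
        | c i' j' =>
          have h1 := comp_of_chain hC hx hy
          rw [comp_cg] at h1
          exact absurd hl h1
    | c i j =>
      have hcomp : ∀ x ∈ C, x = x → lev x = i → ∃ j', x = E.c i j' := by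
        intro x hx _ hl
        cases x with
        | g i' =>
          have h1 := comp_of_chain hC hx hy
          rw [comp_gc] at h1
          exact absurd hl h1
        | c i' j' =>
          have : i' = i := Fin.ext hl
          exact ⟨j', by rw [this]⟩
      refine ⟨E.c i (sInf {j' | E.c i j' ∈ C}), fun x hx => ?_, fun u hu => ?_⟩
      · rcases Nat.lt_or_ge (lev (E.c i j : E m)) (lev x) with h | h
        · refine le_trans ?_ (le_of_lev_lt h (comp_of_chain hC hy hx))
          rw [cc]
          exact ⟨le_rfl, Or.inl (sInf_le hy)⟩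
        · have hl : lev x = i := Nat.le_antisymm h (hmin x hx)
          obtain ⟨j', rfl⟩ := hcomp x hx rfl hl
          rw [cc]
          exact ⟨le_rfl, Or.inl (sInf_le hx)⟩
      · cases u with
        | g i' =>
          have h1 : (i' : ℕ) < i := hu hy
          exact h1
        | c i' j' =>
          have h1 : (i' : ℕ) ≤ i := (hu hy).1
          rw [cc]
          refine ⟨h1, ?_⟩
          by_cases h2 : (i' : ℕ) + 1 < i
          · exact Or.inr h2
          · left
            refine le_sInf fun j'' hj'' => ?_
            have h3 := hu hj''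
            rw [cc] at h3
            rcases h3.2 with h4 | h4
            · exact h4
            · exact absurd h4 h2

theorem countable_E (m : ℕ) : Countable (E m) := by
  have h : Function.Surjective (fun x : Fin m ⊕ (Fin m × ℕ∞) => (match x with
      | Sum.inl i => E.g i
      | Sum.inr y => E.c y.1 y.2 : E m)) := by
    intro x
    cases x with
    | g i => exact ⟨Sum.inl i, rfl⟩
    | c i j => exact ⟨Sum.inr (i, j), rfl⟩
  have : Countable ℕ∞ := inferInstanceAs (Countable (Option ℕ))
  exact h.countable

/-! ### Chains -/

/-- in a chain one step suffices -/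
theorem gamma_chain {α : Type} [PartialOrder α] (h : IsChain (· ≤ ·) (Set.univ : Set α)) :
    gamma α ≤ 1 := by
  rcases isEmpty_or_nonempty α with he | ⟨⟨a⟩⟩
  · have h0 : gamma α ≤ ((0 : ℕ) : ℕ∞) := sInf_le ⟨0, rfl, fun _ => Set.univ, rfl,
      fun k hk => absurd hk (Nat.not_lt_zero k), Set.toFinite _⟩
    exact h0.trans (by exact_mod_cast Nat.zero_le 1)
  · refine sInf_le ⟨1, rfl, fun k => if k = 0 then Set.univ else {a}, rfl, ?_, ?_⟩
    · intro k hk
      have hk0 : k = 0 := by omega
      subst hk0
      simp only [if_true, Nat.zero_add, Nat.one_ne_zero, if_false]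
      refine ⟨Set.subset_univ _, fun p _ => ⟨a, ⟨rfl, ?_⟩, fun q hq => hq.1⟩⟩
      rw [funneled_iff (Set.mem_univ p)]
      exact ⟨Set.mem_univ a, fun x _ _ => comp_of_chain h (Set.mem_univ x) (Set.mem_univ a)⟩
    · simp

/-- **Width two is the exact threshold in Q1 of MP_be1d92_co.** (1) If the ordered set `P` is a
chain, then `γ(P) ≤ 1`. (2) For every `N ≥ 1` there is a countable chain-complete ordered set `P` which
is the union of two chains, so that all its antichains have at most two elements, and for which
the least number of successive retractions onto good subsets leading to a finite ordered set is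
exactly `N`, also with the weaker notion of a good subset. -/
theorem result :
    (∀ (P : Type) [PartialOrder P], IsChain (· ≤ ·) (Set.univ : Set P) → gamma P ≤ 1) ∧
    ∀ N : ℕ, 1 ≤ N → ∃ (P : Type) (_ : PartialOrder P), Countable P ∧ ChainComplete P ∧
      (∃ A B : Set P, IsChain (· ≤ ·) A ∧ IsChain (· ≤ ·) B ∧ A ∪ B = Set.univ) ∧
      (∀ A : Set P, IsAntichain (· ≤ ·) A → A.encard ≤ 2) ∧ NoInfiniteAntichain P ∧
      gamma P = N ∧ gammaWeak P = N := by
  refine ⟨fun P _ h => gamma_chain h, fun N _ => ?_⟩
  have hanti : ∀ A : Set (E (2 * N)), IsAntichain (· ≤ ·) A → A.encard ≤ 2 := fun A hA =>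
    antichain_le D0_chain D1_chain D_union hA
  refine ⟨E (2 * N), inferInstance, countable_E _, chainComplete _,
    ⟨D0 _, D1 _, D0_chain, D1_chain, D_union⟩, hanti, fun A hA => ?_, ?_, ?_⟩
  · exact Set.encard_lt_top_iff.1 (lt_of_le_of_lt (hanti A hA) (ENat.natCast_lt_top 2))
  · refine le_antisymm (sInf_le ⟨N, rfl, upper_bound N⟩) (le_sInf ?_)
    rintro x ⟨n, rfl, hn⟩
    by_contra hlt
    have hn' : n < N := by
      rw [not_le] at hlt
      exact_mod_cast hlt
    obtain ⟨Q, h0, h1, h2⟩ := hn
    exact lower_bound (N := N) hn' ⟨Q, h0, fun k hk => (h1 k hk).weakly, h2⟩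
  · have hup : ReachesFinite (IsWeaklyGood (α := E (2 * N))) N := by
      obtain ⟨Q, h0, h1, h2⟩ := upper_bound N
      exact ⟨Q, h0, fun k hk => (h1 k hk).weakly, h2⟩
    refine le_antisymm (sInf_le ⟨N, rfl, hup⟩) (le_sInf ?_)
    rintro x ⟨n, rfl, hn⟩
    by_contra hlt
    have hn' : n < N := by
      rw [not_le] at hlt
      exact_mod_cast hlt
    exact lower_bound hn' hn

end Pool.Agent.Results.MP_be1d92_co.TwoChains
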